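import Mathlib
import Pool.Agent.H220.TS.Stm

set_option autoImplicit false

open Set Filter Topology Metric
open scoped ComplexConjugate

/-!
# MP_ab13d2_an Q2 : algebra of the Cayley transform with pole `τ`
-/

namespace Pool.Agent.H383.TS

open Pool.Agent.H220.TS

lemma mem_D_iff {z : ℂ} : z ∈ D ↔ ‖z‖ < 1 := by
  unfold D
  rw [mem_ball_zero_iff]

lemma sub_ne {τ z : ℂ} (hτ : ‖τ‖ = 1) (hz : z ∈ D) : τ - z ≠ 0 := by
  intro h
  have h1 : τ = z := sub_eq_zero.mp h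
  have h2 := mem_D_iff.mp hz
  rw [← h1, hτ] at h2
  exact lt_irrefl _ h2

lemma tau_mul_conj {τ : ℂ} (hτ : ‖τ‖ = 1) : τ * conj τ = 1 := by
  rw [Complex.mul_conj, Complex.normSq_eq_norm_sq, hτ]
  norm_num

lemma W_add_conj {τ z z' : ℂ} (hτ : ‖τ‖ = 1) (hz : z ∈ D) (hz' : z' ∈ D) :
    W τ z + conj (W τ z') = 2 * (1 - z * conj z') / ((τ - z) * conj (τ - z')) := by
  have h1 := sub_ne hτ hz
  have h2 : conj (τ - z') ≠ 0 := by
    intro h
    exact sub_ne hτ hz' ((map_eq_zero (starRingEnd ℂ)).mp h)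
  have ht := tau_mul_conj hτ
  unfold W
  rw [map_div₀, div_add_div _ _ h1 h2]
  congr 1
  rw [map_sub, map_add]
  linear_combination 2 * ht

lemma W_sub {τ z z' : ℂ} (hτ : ‖τ‖ = 1) (hz : z ∈ D) (hz' : z' ∈ D) :
    W τ z - W τ z' = 2 * τ * (z - z') / ((τ - z) * (τ - z')) := by
  have h1 := sub_ne hτ hz
  have h2 := sub_ne hτ hz'
  unfold W
  rw [div_sub_div _ _ h1 h2]
  congr 1
  ring

lemma norm_pos_sub {τ z : ℂ} (hτ : ‖τ‖ = 1) (hz : z ∈ D) : 0 < ‖τ - z‖ :=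
  norm_pos_iff.mpr (sub_ne hτ hz)

lemma W_re {τ z : ℂ} (hτ : ‖τ‖ = 1) (hz : z ∈ D) :
    (W τ z).re = (1 - ‖z‖ ^ 2) / ‖τ - z‖ ^ 2 := by
  have h := W_add_conj hτ hz hz
  rw [Complex.add_conj, Complex.mul_conj, Complex.mul_conj, Complex.normSq_eq_norm_sq,
    Complex.normSq_eq_norm_sq] at h
  have h2 : (((2 * (W τ z).re : ℝ)) : ℂ) =
      ((2 * (1 - ‖z‖ ^ 2) / ‖τ - z‖ ^ 2 : ℝ) : ℂ) := by
    rw [h]
    push_cast
    ring
  have h3 : 2 * (W τ z).re = 2 * (1 - ‖z‖ ^ 2) / ‖τ - z‖ ^ 2 := by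
    exact_mod_cast h2
  have h4 : 2 * (1 - ‖z‖ ^ 2) / ‖τ - z‖ ^ 2 = 2 * ((1 - ‖z‖ ^ 2) / ‖τ - z‖ ^ 2) := by ring
  linarith

lemma one_sub_pos {z : ℂ} (hz : z ∈ D) : 0 < 1 - ‖z‖ ^ 2 := by
  have h := mem_D_iff.mp hz
  have h0 := norm_nonneg z
  nlinarith

lemma one_add_W {τ z : ℂ} (hτ : ‖τ‖ = 1) (hz : z ∈ D) :
    W τ z + 1 = 2 * τ / (τ - z) := by
  have h1 := sub_ne hτ hz
  unfold W
  rw [div_add_one h1]
  congr 1
  ring

theorem s_cay : S_cay := by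
  intro τ hτ z hz
  have hn := norm_pos_sub hτ hz
  have hre := W_re hτ hz
  have hp := one_sub_pos hz
  have hpos : 0 < (W τ z).re := by
    rw [hre]
    positivity
  refine ⟨hre, hpos, ?_, ?_⟩
  · intro z' hz'
    have hn' := norm_pos_sub hτ hz'
    rw [W_sub hτ hz hz', W_add_conj hτ hz hz']
    have e1 : ‖2 * τ * (z - z') / ((τ - z) * (τ - z'))‖ =
        2 * ‖z - z'‖ / (‖τ - z‖ * ‖τ - z'‖) := by
      rw [norm_div, norm_mul, norm_mul, norm_mul, hτ, Complex.norm_two, mul_one]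
    have e2 : ‖2 * (1 - z * conj z') / ((τ - z) * conj (τ - z'))‖ =
        2 * ‖1 - conj z * z'‖ / (‖τ - z‖ * ‖τ - z'‖) := by
      rw [norm_div, norm_mul, norm_mul, Complex.norm_two, Complex.norm_conj]
      have e3 : ‖1 - z * conj z'‖ = ‖1 - conj z * z'‖ := by
        rw [← Complex.norm_conj (1 - z * conj z')]
        rw [map_sub, map_mul, map_one, Complex.conj_conj]
      rw [e3]
    rw [e1, e2]
    unfold psi
    rw [norm_div]
    have hnn : ‖τ - z‖ * ‖τ - z'‖ ≠ 0 := by positivity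
    rw [div_div_div_cancel_right₀ hnn, mul_div_mul_left _ _ (two_ne_zero)]
  · have hz1 := mem_D_iff.mp hz
    have hz0 := norm_nonneg z
    have hW : ‖W τ z + 1‖ = 2 / ‖τ - z‖ := by
      rw [one_add_W hτ hz, norm_div, norm_mul, hτ, Complex.norm_two, mul_one]
    have hle : 2 / ‖τ - z‖ ≤ ‖W τ z‖ + 1 := by
      rw [← hW]
      have h1 := norm_add_le (W τ z) 1
      rw [norm_one] at h1
      exact h1
    have hsq : (2 / ‖τ - z‖) ^ 2 ≤ (‖W τ z‖ + 1) ^ 2 := by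
      apply pow_le_pow_left₀ (by positivity) hle
    have h1 : (2 / ‖τ - z‖) ^ 2 / (W τ z).re = 4 / (1 - ‖z‖ ^ 2) := by
      rw [hre]
      field_simp
      norm_num
    have h2 : (1 + ‖z‖) / (1 - ‖z‖) ≤ 4 / (1 - ‖z‖ ^ 2) := by
      rw [div_le_div_iff₀ (by linarith) hp]
      nlinarith [mul_nonneg hz0 hz0, mul_pos (sub_pos.mpr hz1) (sub_pos.mpr hz1),
        mul_nonneg hz0 (sub_pos.mpr hz1).le]
    calc (1 + ‖z‖) / (1 - ‖z‖) ≤ 4 / (1 - ‖z‖ ^ 2) := h2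
      _ = (2 / ‖τ - z‖) ^ 2 / (W τ z).re := h1.symm
      _ ≤ (‖W τ z‖ + 1) ^ 2 / (W τ z).re := by
          apply div_le_div_of_nonneg_right hsq hpos.le

end Pool.Agent.H383.TS
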